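import Mathlib
import Pool.Agent.H281K.Types

/-!
# The Beck–Fiala problem: reduction to separated elements, and few separated elements

Two elements are separated by the sets which contain exactly one of them.

(1) If all set systems of maximum degree at most `t`, in which any two elements are separated by
more than `ρ` sets, have discrepancy at most `R`, then all set systems of maximum degree at most
`t` have discrepancy at most `ρ + R`.

(2) So, for every constant `K`, the Beck–Fiala conjecture is equivalent to its restriction to the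
set systems of maximum degree at most `t` in which any two elements are separated by more than
`K √t` sets.

(3) Let at most `N` elements be pairwise separated by more than `ρ` sets, and at most `s` elements
of every set (the sets and the number of elements may be arbitrarily large). Then the discrepancy
is at most `ρ + C r (√t + (1 + log t)^2 √(log s)) + C (√t + (1 + log t)^{3/2} √(log^{(r+1)} N'))`
for every `r`, where `N' = min m N`, `log^{(k)}` is the `k`-th iterate of `x ↦ log (1 + x)`, and `C`
is an absolute constant.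

(4) In particular the Beck–Fiala bound `O_r (√t)` holds if `ρ ≤ √t`,
`log^{(r+1)} N ≤ t / (1 + log t)^3`, and, unless `r = 0`, `log s ≤ t / (1 + log t)^4`. For `r = 0`
this is the case of at most `exp (t / (1 + log t)^3) - 1` elements which are pairwise separated by
more than `√t` sets; the number of elements and of sets is arbitrary.

Proof. Group the elements into pairs which are separated by at most `ρ` sets and single elements
without such pairs. The differences of the columns of the pairs have `ℓ¹` norm at most `ρ`, so they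
have a signing of value at most `ρ` (start file `BeckFialaBoundT`); the single elements are coloured
by the hypothesis, or by the start file `BeckFialaIterFree`.
-/

set_option autoImplicit false

namespace Pool.Agent.Results.MP_e8ee11_co.SeparatedElements

open Finset

/-- every element lies in at most `t` sets -/
def MaxDegree {m n : ℕ} (S : Fin m → Finset (Fin n)) (t : ℕ) : Prop :=
  ∀ j, (univ.filter (fun i => j ∈ S i)).card ≤ t

/-- some colouring `χ` with the colours `1`, `-1` has `|χ(S_i)| ≤ R` for all sets -/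
def HasColouring {m n : ℕ} (S : Fin m → Finset (Fin n)) (R : ℝ) : Prop :=
  ∃ χ : Fin n → ℤ, (∀ j, χ j = 1 ∨ χ j = -1) ∧ ∀ i, |((∑ j ∈ S i, χ j : ℤ) : ℝ)| ≤ R

/-- the number of sets which contain exactly one of the elements `x` and `y` -/
def separating {m n : ℕ} (S : Fin m → Finset (Fin n)) (x y : Fin n) : ℕ :=
  (univ.filter (fun i => ¬ (x ∈ S i ↔ y ∈ S i))).card

/-- the elements of `J` are pairwise separated by more than `ρ` sets -/
def PairwiseSeparated {m n : ℕ} (S : Fin m → Finset (Fin n)) (ρ : ℕ) (J : Finset (Fin n)) : Prop :=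
  ∀ x ∈ J, ∀ y ∈ J, x ≠ y → ρ < separating S x y

theorem part1 (t ρ : ℕ) (R : ℝ) (h : ∀ (m n : ℕ) (S : Fin m → Finset (Fin n)), MaxDegree S t →
      (∀ x y, x ≠ y → ρ < separating S x y) → HasColouring S R) :
    ∀ (m n : ℕ) (S : Fin m → Finset (Fin n)), MaxDegree S t → HasColouring S (ρ + R) :=
  fun m _ S hS => Pool.Agent.H281K.reduceS S ρ R fun J hJ =>
    h m J.card _ (Pool.Agent.H281K.trc_deg S hS J) (Pool.Agent.H281K.trc_sep S J hJ)

theorem result :
    (∀ (t ρ : ℕ) (R : ℝ), (∀ (m n : ℕ) (S : Fin m → Finset (Fin n)), MaxDegree S t →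
      (∀ x y, x ≠ y → ρ < separating S x y) → HasColouring S R) →
      ∀ (m n : ℕ) (S : Fin m → Finset (Fin n)), MaxDegree S t → HasColouring S (ρ + R)) ∧
    (∀ K : ℝ,
      (∃ C : ℝ, ∀ (m n t : ℕ) (S : Fin m → Finset (Fin n)), MaxDegree S t →
        HasColouring S (C * Real.sqrt t)) ↔
      ∃ C : ℝ, ∀ (m n t : ℕ) (S : Fin m → Finset (Fin n)), MaxDegree S t →
        (∀ x y, x ≠ y → K * Real.sqrt t < separating S x y) →
        HasColouring S (C * Real.sqrt t)) ∧
    (∃ C : ℝ, ∀ m n t s N ρ : ℕ, 1 ≤ t → 1 ≤ s → ∀ S : Fin m → Finset (Fin n), MaxDegree S t →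
      (∀ J, PairwiseSeparated S ρ J → J.card ≤ N) →
      (∀ i, ∀ J ⊆ S i, PairwiseSeparated S ρ J → J.card ≤ s) →
      ∀ r : ℕ, HasColouring S (ρ +
        (C * r * (Real.sqrt t + (1 + Real.log t) ^ 2 * Real.sqrt (Real.log s))
        + C * (Real.sqrt t + (1 + Real.log t) ^ (3 / 2 : ℝ)
            * Real.sqrt ((fun x : ℝ => Real.log (1 + x))^[r + 1] (min m N : ℕ)))))) ∧
    ∀ r : ℕ, ∃ C : ℝ, ∀ m n t s N ρ : ℕ, 1 ≤ t → 1 ≤ s →
      ∀ S : Fin m → Finset (Fin n), MaxDegree S t →
      (∀ J, PairwiseSeparated S ρ J → J.card ≤ N) →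
      (∀ i, ∀ J ⊆ S i, PairwiseSeparated S ρ J → J.card ≤ s) →
      (ρ : ℝ) ≤ Real.sqrt t → (r = 0 ∨ Real.log s ≤ t / (1 + Real.log t) ^ 4) →
      (fun x : ℝ => Real.log (1 + x))^[r + 1] N ≤ t / (1 + Real.log t) ^ 3 →
      HasColouring S (C * Real.sqrt t) := by
  refine ⟨part1, fun K => ⟨?_, ?_⟩, ?_, Pool.Agent.H281K.root_bound⟩
  · rintro ⟨C, h⟩
    exact ⟨C, fun m n t S hS _ => h m n t S hS⟩
  · rintro ⟨C, h⟩
    refine ⟨|K| + C, fun m n t S hS => ?_⟩
    have h1 := part1 t ⌊|K| * Real.sqrt t⌋₊ (C * Real.sqrt t) (fun m n S hS hsep =>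
      h m n t S hS fun x y hxy => by
        have h2 := Nat.lt_of_floor_lt (hsep x y hxy)
        refine lt_of_le_of_lt ?_ h2
        exact mul_le_mul_of_nonneg_right (le_abs_self K) (Real.sqrt_nonneg _)) m n S hS
    obtain ⟨χ, hχ, h3⟩ := h1
    refine ⟨χ, hχ, fun i => (h3 i).trans ?_⟩
    have h4 := Nat.floor_le (show (0:ℝ) ≤ |K| * Real.sqrt t by positivity)
    nlinarith
  · obtain ⟨C, _, h⟩ := Pool.Agent.H281K.types
    exact ⟨C, h⟩

end Pool.Agent.Results.MP_e8ee11_co.SeparatedElements
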